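import Pool.Agent.Helper40.AC.Stmts

/-!
Packet P14 of project AC.
-/

open scoped TensorProduct

namespace Pool.Agent.Helper22.AC

open Pool.Agent.Helper40.AC

/-- Splitting of a surjection onto a projective module. -/
theorem exists_split {B M N : Type} [CommRing B] [AddCommGroup M] [Module B M] [AddCommGroup N]
    [Module B N] (hN : Module.Projective B N) (f : M →ₗ[B] N) (hf : Function.Surjective f) :
    Nonempty (M ≃ₗ[B] (LinearMap.ker f × N)) := by
  obtain ⟨s, hs⟩ := Module.projective_lifting_property f LinearMap.id hf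
  have hs' : ∀ y, f (s y) = y := fun y => by
    have := LinearMap.congr_fun hs y
    simpa using this
  refine ⟨LinearEquiv.ofLinearMap
    (LinearMap.prod (LinearMap.codRestrict (LinearMap.ker f) (LinearMap.id - s ∘ₗ f) ?_) f)
    (LinearMap.coprod (LinearMap.ker f).subtype s) ?_ ?_⟩
  · intro x
    simp [LinearMap.mem_ker, hs']
  · refine LinearMap.ext ?_
    rintro ⟨⟨k, hk⟩, y⟩
    have hk' : f k = 0 := hk
    refine Prod.ext (Subtype.ext ?_) ?_
    · simp [hs', hk']
    · simp [hs', hk']
  · refine LinearMap.ext fun x => ?_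
    simp

theorem ker_fin_proj {B M N : Type} [CommRing B] [AddCommGroup M] [Module B M] [AddCommGroup N]
    [Module B N] (hM : Module.Finite B M) (hMp : Module.Projective B M)
    (hN : Module.Projective B N) (f : M →ₗ[B] N) (hf : Function.Surjective f) :
    Module.Finite B (LinearMap.ker f) ∧ Module.Projective B (LinearMap.ker f) := by
  obtain ⟨e⟩ := exists_split hN f hf
  constructor
  · refine Module.Finite.of_surjective ((LinearMap.fst B (LinearMap.ker f) N) ∘ₗ e.toLinearMap) ?_
    exact fun k => ⟨e.symm (k, 0), by simp⟩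
  · refine Module.Projective.of_split (e.symm.toLinearMap ∘ₗ LinearMap.inl B (LinearMap.ker f) N)
      ((LinearMap.fst B (LinearMap.ker f) N) ∘ₗ e.toLinearMap) ?_
    refine LinearMap.ext fun x => ?_
    simp

theorem val_fin {B G : Type} [CommRing B] [AddCommGroup G] (φ : AddInv B G) (E : Type)
    [AddCommGroup E] [Module B E] (hE : Module.Finite B E) (hEp : Module.Projective B E) (m : ℕ) :
    φ.val (Fin m → E) = (m : ℤ) • φ.val E := by
  induction m with
  | zero =>
    have h1 : φ.val (Fin 0 → E) = φ.val ((Fin 0 → E) × (Fin 0 → E)) :=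
      φ.congr _ _ (LinearEquiv.ofSubsingleton _ _)
    rw [φ.prod (Fin 0 → E) (Fin 0 → E) inferInstance inferInstance inferInstance inferInstance]
      at h1
    have h2 : φ.val (Fin 0 → E) = 0 := by
      have := congrArg (fun t => t - φ.val (Fin 0 → E)) h1
      simpa using this.symm
    simp [h2]
  | succ m ih =>
    have hfp : Module.Projective B (Fin m → E) :=
      Module.Projective.of_equiv' (TensorProduct.piScalarRight B B E (Fin m))
    have h1 : φ.val (Fin (m + 1) → E) = φ.val (E × (Fin m → E)) :=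
      φ.congr _ _ (Fin.consLinearEquiv B (fun _ : Fin (m + 1) => E)).symm
    rw [h1, φ.prod E (Fin m → E) hE hEp inferInstance inferInstance, ih]
    push_cast
    rw [add_smul, one_smul, add_comm]

theorem ell_ok : S_ELL := by
  intro P B G _ _ _ _ φ J _ _ m π hπ hJf hJp hKf hKp
  set u := (LinearMap.ker π).subtype.baseChange B with hu
  set v := π.baseChange B with hv
  have hvs : Function.Surjective v := LinearMap.baseChange_surjective B hπ
  have hex : ∀ x, v x = 0 ↔ ∃ y, u y = x := by
    intro x
    have h := lTensor_exact (Q := B) (f := (LinearMap.ker π).subtype) (g := π)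
      (by rw [LinearMap.exact_iff]; simp) hπ
    exact h x
  -- B ⊗ P^m
  let eP : (B ⊗[P] (Fin m → P)) ≃ₗ[B] (Fin m → B) := TensorProduct.piScalarRight P B B (Fin m)
  have hPf : Module.Finite B (B ⊗[P] (Fin m → P)) := inferInstance
  have hPp : Module.Projective B (B ⊗[P] (Fin m → P)) := inferInstance
  obtain ⟨hRf, hRp⟩ := ker_fin_proj hPf hPp hJp v hvs
  obtain ⟨e1⟩ := exists_split hJp v hvs
  -- the map onto the kernel of v
  let u' : (B ⊗[P] (LinearMap.ker π)) →ₗ[B] (LinearMap.ker v) :=
    LinearMap.codRestrict (LinearMap.ker v) u (fun y => (hex (u y)).2 ⟨y, rfl⟩)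
  have hu' : Function.Surjective u' := by
    rintro ⟨x, hx⟩
    obtain ⟨y, hy⟩ := (hex x).1 hx
    exact ⟨y, Subtype.ext hy⟩
  obtain ⟨hlf, hlp⟩ := ker_fin_proj (B := B) (M := B ⊗[P] (LinearMap.ker π))
    (N := LinearMap.ker v) hKf hKp hRp u' hu'
  obtain ⟨e2⟩ := exists_split (B := B) (M := B ⊗[P] (LinearMap.ker π))
    (N := LinearMap.ker v) hRp u' hu'
  refine ⟨LinearMap.ker u', inferInstance, inferInstance, hlf, hlp, ?_⟩
  intro E _ _ hE hEp
  have h1 : φ.val (E ⊗[B] (B ⊗[P] (LinearMap.ker π))) =
      φ.val (E ⊗[B] (LinearMap.ker u')) + φ.val (E ⊗[B] (LinearMap.ker v)) := by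
    rw [← φ.prod (E ⊗[B] (LinearMap.ker u')) (E ⊗[B] (LinearMap.ker v)) inferInstance
      inferInstance inferInstance inferInstance]
    exact φ.congr _ _ ((TensorProduct.congr (LinearEquiv.refl B E) e2).trans
      (TensorProduct.prodRight B B E (LinearMap.ker u') (LinearMap.ker v)))
  have h2 : φ.val (E ⊗[B] (B ⊗[P] (Fin m → P))) =
      φ.val (E ⊗[B] (LinearMap.ker v)) + φ.val (E ⊗[B] (B ⊗[P] J)) := by
    rw [← φ.prod (E ⊗[B] (LinearMap.ker v)) (E ⊗[B] (B ⊗[P] J)) inferInstance
      inferInstance inferInstance inferInstance]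
    exact φ.congr _ _ ((TensorProduct.congr (LinearEquiv.refl B E) e1).trans
      (TensorProduct.prodRight B B E (LinearMap.ker v) (B ⊗[P] J)))
  have h3 : φ.val (E ⊗[B] (B ⊗[P] (Fin m → P))) = (m : ℤ) • φ.val E := by
    rw [← val_fin φ E hE hEp m]
    exact φ.congr _ _ ((TensorProduct.congr (LinearEquiv.refl B E) eP).trans
      (TensorProduct.piScalarRight B B E (Fin m)))
  rw [← h3, h2, h1]
  abel

end Pool.Agent.Helper22.AC
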