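import Pool.Agent.Helper40.AC.Stmts

/-!
Packet P25 of project AC.
-/

open scoped ContDiff Topology Matrix TensorProduct

namespace Pool.Agent.Helper22.AC

open Pool.Agent.Helper40.AC

noncomputable section

theorem contDiff_eval (F : MvPolynomial (Fin 8) ℂ) :
    ContDiff ℝ ∞ (fun z : Fin 8 → ℂ => MvPolynomial.eval z F) := by
  induction F using MvPolynomial.induction_on with
  | C a => simpa using contDiff_const
  | add p q hp hq => simpa using hp.add hq
  | mul_X p n hp =>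
    have h : ContDiff ℝ ∞ (fun z : Fin 8 → ℂ => z n) := contDiff_apply ℝ ℂ n
    simpa using hp.mul h

variable {Z : Set (Idx → ℝ)} (T : TData Z)

theorem K_mem (x : Ang) : T.K x ∈ Z := by
  rw [← T.ψ0 x]; exact T.ψmem x 0

theorem K_ne (x : Ang) : 1 + ww (T.K x) 4 ≠ 0 := by
  have := T.pos x
  linarith

theorem GF_diff (h3 : S_TOT) (F : MvPolynomial (Fin 8) ℂ) (x : Ang) :
    DifferentiableAt ℝ (GF F) (T.K x) := by
  have h1 : ContDiffAt ℝ ∞ Psi (T.K x) := (h3 _ (T.ZV (K_mem T x)) (K_ne T x)).1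
  have h2 : DifferentiableAt ℝ Psi (T.K x) := h1.differentiableAt (by simp)
  have h4 : DifferentiableAt ℝ (fun z : Fin 8 → ℂ => MvPolynomial.eval z F) (Psi (T.K x)) :=
    ((contDiff_eval F).differentiable (by simp)).differentiableAt
  exact h4.comp _ h2

theorem nuF_add (h3 : S_TOT) (F G : MvPolynomial (Fin 8) ℂ) (i : Idx) (x : Ang) :
    nuF T (F + G) i x = nuF T F i x + nuF T G i x := by
  have h : GF (F + G) = GF F + GF G := by
    funext z; simp [GF]
  unfold nuF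
  rw [h, fderiv_add (GF_diff T h3 F x) (GF_diff T h3 G x), ← Finset.sum_add_distrib]
  refine Finset.sum_congr rfl fun j _ => ?_
  simp [mul_add]

theorem nuF_mul (h3 : S_TOT) (h F : MvPolynomial (Fin 8) ℂ) (hF : F ∈ JJ Z) (i : Idx) (x : Ang) :
    nuF T (h * F) i x = MvPolynomial.eval (Psi (T.K x)) h * nuF T F i x := by
  have h1 : GF (h * F) = GF h * GF F := by
    funext z; simp [GF]
  have h0 : GF F (T.K x) = 0 := hF _ (K_mem T x) (K_ne T x)
  unfold nuF
  rw [h1, fderiv_mul (GF_diff T h3 h x) (GF_diff T h3 F x), h0, Finset.mul_sum]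
  refine Finset.sum_congr rfl fun j _ => ?_
  have hz : ((GF h (T.K x) • fderiv ℝ (GF F) (T.K x) + (0 : ℂ) • fderiv ℝ (GF h) (T.K x))
      (Pi.single j 1)) = MvPolynomial.eval (Psi (T.K x)) h *
        (fderiv ℝ (GF F) (T.K x)) (Pi.single j 1) := by
    simp [GF]
  rw [hz]
  ring

theorem tan_C {z : Idx → ℝ} {g : (Fin 8 → ℝ) → Idx → ℝ} (hg : ContDiff ℝ ∞ g)
    (hV : ∀ u, g u ∈ VV) (h0 : g 0 = z) (w : Fin 8 → ℝ) (j : Fin 4) :
    norC z j ⬝ᵥ (fderiv ℝ g 0 w) = 0 := by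
  have hd : HasFDerivAt g (fderiv ℝ g 0) 0 :=
    ((hg.differentiable (by simp)) 0).hasFDerivAt
  have hc : ∀ i : Idx, HasFDerivAt (fun u => g u i)
      ((ContinuousLinearMap.proj (R := ℝ) (φ := fun _ : Idx => ℝ) i).comp (fderiv ℝ g 0)) 0 :=
    fun i => (hasFDerivAt_pi'.1 hd) i
  have h1 := ((hc (Sum.inl j)).pow 2).add ((hc (Sum.inr (Sum.inl j))).pow 2)
  have h2 : (fun u => g u (Sum.inl j) ^ 2 + g u (Sum.inr (Sum.inl j)) ^ 2) =
      fun _ => (1 : ℝ) := by
    funext u; exact (hV u).1 j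
  have h3 : HasFDerivAt (fun u => g u (Sum.inl j) ^ 2 + g u (Sum.inr (Sum.inl j)) ^ 2)
      (0 : (Fin 8 → ℝ) →L[ℝ] ℝ) 0 := by
    rw [h2]; exact hasFDerivAt_const _ _
  have h4 := congrArg (fun L : (Fin 8 → ℝ) →L[ℝ] ℝ => L w) (h1.unique h3)
  simp [h0] at h4
  simp only [dotProduct, norC, Fintype.sum_sum_type, Sum.elim_inl, Sum.elim_inr, zero_mul,
    Finset.sum_const_zero, add_zero, ite_mul, Finset.sum_ite_eq', Finset.mem_univ, if_true, cc, ss]
  linarith

theorem tan_S {z : Idx → ℝ} {g : (Fin 8 → ℝ) → Idx → ℝ} (hg : ContDiff ℝ ∞ g)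
    (hV : ∀ u, g u ∈ VV) (h0 : g 0 = z) (w : Fin 8 → ℝ) :
    norS z ⬝ᵥ (fderiv ℝ g 0 w) = 0 := by
  have hd : HasFDerivAt g (fderiv ℝ g 0) 0 :=
    ((hg.differentiable (by simp)) 0).hasFDerivAt
  have hc : ∀ i : Idx, HasFDerivAt (fun u => g u i)
      ((ContinuousLinearMap.proj (R := ℝ) (φ := fun _ : Idx => ℝ) i).comp (fderiv ℝ g 0)) 0 :=
    fun i => (hasFDerivAt_pi'.1 hd) i
  have h1 := HasFDerivAt.fun_sum (u := (Finset.univ : Finset (Fin 5)))
    (fun k _ => (hc (Sum.inr (Sum.inr k))).pow 2)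
  have h2 : (fun u => ∑ k : Fin 5, g u (Sum.inr (Sum.inr k)) ^ 2) =
      fun _ => (1 : ℝ) := by
    funext u; exact (hV u).2
  have h3 : HasFDerivAt (fun u => ∑ k : Fin 5, g u (Sum.inr (Sum.inr k)) ^ 2)
      (0 : (Fin 8 → ℝ) →L[ℝ] ℝ) 0 := by
    rw [h2]; exact hasFDerivAt_const _ _
  have h4 := congrArg (fun L : (Fin 8 → ℝ) →L[ℝ] ℝ => L w) (h1.unique h3)
  simp [h0] at h4
  simp only [dotProduct, norS, Fintype.sum_sum_type, Sum.elim_inl, Sum.elim_inr, zero_mul,
    Finset.sum_const_zero, zero_add, ww]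
  have h5 : ∑ k : Fin 5, 2 * z (Sum.inr (Sum.inr k)) * (fderiv ℝ g 0) w (Sum.inr (Sum.inr k)) =
      2 * ∑ k : Fin 5, z (Sum.inr (Sum.inr k)) * (fderiv ℝ g 0) w (Sum.inr (Sum.inr k)) := by
    rw [Finset.mul_sum]; refine Finset.sum_congr rfl fun k _ => by ring
  linarith

theorem geo2_ok (h1 : S_JET) (h2 : S_NUSM) (h3 : S_TOT) (h4 : S_TWO) : S_GEO2 := by
  intro Z T hZ
  obtain ⟨hn1, hn2⟩ := h2 Z T
  let κ : Fin 8 → BB := fun l => BB.mk (fun x => Psi (T.K x) l) (hn2 l).1 (hn2 l).2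
  have hκ : ∀ (F : MvPolynomial (Fin 8) ℂ) (x : Ang),
      evx x (MvPolynomial.aeval κ F) = MvPolynomial.eval (Psi (T.K x)) F := by
    intro F x
    induction F using MvPolynomial.induction_on with
    | C a =>
      simp only [MvPolynomial.aeval_C, MvPolynomial.eval_C]
      exact BB.fn_algebraMap a x
    | add p q hp hq => simp only [map_add, hp, hq]
    | mul_X p n hp =>
      simp only [map_mul, hp, MvPolynomial.aeval_X, MvPolynomial.eval_X]
      rfl
  refine ⟨{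
    κ := κ
    J := JJ Z
    ν := fun F i => BB.mk (nuF T F i) (hn1 F i).1 (hn1 F i).2
    add := ?_
    smul := ?_
    mem := ?_
    loc := ?_ }⟩
  · intro F G
    funext i
    refine BB.ext fun x => ?_
    simpa using nuF_add T h3 F G i x
  · intro h F
    funext i
    refine BB.ext fun x => ?_
    have := nuF_mul T h3 h F F.2 i x
    have hk := hκ h x
    simp only [Pi.smul_apply, smul_eq_mul, BB.fn_mul, BB.fn_mk]
    rw [evx_apply] at hk
    rw [hk]
    simpa using this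
  · intro F
    funext i
    refine BB.ext fun x => ?_
    rw [← evx_apply, ← evx_apply]
    simp only [Matrix.mulVec, dotProduct, map_sum, map_mul]
    simp only [evx_apply, mB_fn, BB.fn_mk]
    have hid : ∀ i i', ∑ j, (T.p x i j : ℂ) * (T.p x j i' : ℂ) = (T.p x i i' : ℂ) := by
      intro i i'
      have := congrFun (congrFun (T.idem x) i) i'
      rw [Matrix.mul_apply] at this
      rw [← this]
      push_cast
      rfl
    unfold nuF
    simp only [Finset.mul_sum]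
    rw [Finset.sum_comm]
    refine Finset.sum_congr rfl fun i' _ => ?_
    rw [← hid i i', Finset.sum_mul]
    refine Finset.sum_congr rfl fun j _ => ?_
    ring
  · intro x
    obtain ⟨F₁, hF₁, F₂, hF₂, hli, hlc⟩ := h4 Z T hZ x
    refine ⟨⟨F₁, hF₁⟩, ⟨F₂, hF₂⟩, hli, ?_⟩
    -- the six parameter map
    set D := fderiv ℝ (T.ψ x) 0 with hD
    let b := Module.finBasisOfFinrankEq ℝ (LinearMap.range D.toLinearMap) (T.rk x)
    have hw : ∀ k : Fin 6, ∃ w : Fin 8 → ℝ, D w = (b k : Idx → ℝ) := by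
      intro k
      obtain ⟨w, hw⟩ := (b k).2
      exact ⟨w, hw⟩
    choose w hw using hw
    let B : (Fin 6 → ℝ) →ₗ[ℝ] (Fin 8 → ℝ) := (Pi.basisFun ℝ (Fin 6)).constr ℝ w
    have hB : ∀ k, B (Pi.single k 1) = w k := by
      intro k
      have := (Pi.basisFun ℝ (Fin 6)).constr_basis ℝ w k
      rwa [Pi.basisFun_apply] at this
    let Bc : (Fin 6 → ℝ) →L[ℝ] (Fin 8 → ℝ) := LinearMap.toContinuousLinearMap B
    have hBc : ∀ u, Bc u = B u := fun u => rfl
    obtain ⟨hPs, hind⟩ := h3 _ (T.ZV (K_mem T x)) (K_ne T x)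
    have e0 : T.ψ x (Bc 0) = T.K x := by rw [map_zero]; exact T.ψ0 x
    have hin : ContDiff ℝ ∞ (fun u => T.ψ x (Bc u)) := (T.ψsm x).comp Bc.contDiff
    have hPs' : ContDiffAt ℝ ∞ Psi (T.ψ x (Bc 0)) := by rw [e0]; exact hPs
    have hcd : ContDiffAt ℝ ∞ (fun u => Psi (T.ψ x (Bc u))) 0 := by
      change ContDiffAt ℝ ∞ (Psi ∘ fun u => T.ψ x (Bc u)) 0
      exact ContDiffAt.comp (0 : Fin 6 → ℝ) hPs' hin.contDiffAt
    have hder : ∀ k : Fin 6, fderiv ℝ (fun u => Psi (T.ψ x (Bc u))) 0 (Pi.single k 1) =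
        fderiv ℝ Psi (T.K x) (b k : Idx → ℝ) := by
      intro k
      have ha : HasFDerivAt (T.ψ x) D (Bc 0) := by
        rw [map_zero]
        exact (((T.ψsm x).differentiable (by simp)) 0).hasFDerivAt
      have hb : HasFDerivAt (fun u => T.ψ x (Bc u)) (D.comp Bc) 0 :=
        ha.comp (0 : Fin 6 → ℝ) Bc.hasFDerivAt
      have hc : HasFDerivAt Psi (fderiv ℝ Psi (T.K x)) (T.ψ x (Bc 0)) := by
        rw [e0]
        exact (hPs.differentiableAt (by simp)).hasFDerivAt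
      have hd := hc.comp (0 : Fin 6 → ℝ) hb
      have hd' := hd.fderiv
      have : fderiv ℝ (fun u => Psi (T.ψ x (Bc u))) 0 =
        (fderiv ℝ Psi (T.K x)).comp (D.comp Bc) := hd'
      rw [this]
      simp only [ContinuousLinearMap.comp_apply, hBc, hB, hw]
    have hlin : LinearIndependent ℂ
        (fun k : Fin 6 => fderiv ℝ (fun u => Psi (T.ψ x (Bc u))) 0 (Pi.single k 1)) := by
      simp only [hder]
      refine hind 6 (fun k => (b k : Idx → ℝ)) ?_ ?_ ?_
      · intro k j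
        rw [← hw k]
        exact tan_C (T.ψsm x) (fun u => T.ZV (T.ψmem x u)) (T.ψ0 x) (w k) j
      · intro k
        rw [← hw k]
        exact tan_S (T.ψsm x) (fun u => T.ZV (T.ψmem x u)) (T.ψ0 x) (w k)
      · exact b.linearIndependent.map' (LinearMap.range D.toLinearMap).subtype
          (Submodule.ker_subtype _)
    have hev : ∀ᶠ u in 𝓝 (0 : Fin 6 → ℝ), ∀ F ∈ JJ Z,
        MvPolynomial.eval (Psi (T.ψ x (Bc u))) F = 0 := by
      have hcont : Continuous (fun u => 1 + ww (T.ψ x (Bc u)) 4) := by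
        have : Continuous (fun u => T.ψ x (Bc u)) := hin.continuous
        exact continuous_const.add ((continuous_apply _).comp this)
      have hne : (1 + ww (T.ψ x (Bc 0)) 4) ≠ 0 := by rw [e0]; exact K_ne T x
      filter_upwards [hcont.continuousAt.eventually_ne hne] with u hu F hF
      exact hF _ (T.ψmem x _) hu
    obtain ⟨e, he1, he2⟩ := h1 (JJ Z) (fun u => Psi (T.ψ x (Bc u))) hcd hev hlin F₁ hF₁ F₂ hF₂
      (by simp only [e0]; exact hlc)
    refine ⟨e, ?_, fun F => he2 F F.2⟩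
    rw [hκ]
    simpa only [e0] using he1

end

end Pool.Agent.Helper22.AC
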